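import Mathlib

namespace Pool.Agent.Results.MP_4b0123_al.Cases

/-- `pw x n` is the power `x ^ (n + 1)`. -/
def pw {S : Type*} [CommSemigroup S] (x : S) : ℕ → S
  | 0 => x
  | n + 1 => x * pw x n

/-- A commutative semigroup is cancellative. -/
def Canc (T : Type*) [Mul T] : Prop := ∀ a b c : T, a * b = a * c → b = c

section
variable {S : Type*} [CommSemigroup S]

lemma pw_add (x : S) (m n : ℕ) : pw x (m + n + 1) = pw x m * pw x n := by
  induction m with
  | zero => simp [pw]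
  | succ m ih => rw [show m + 1 + n + 1 = (m + n + 1) + 1 by omega, pw, ih, pw, mul_assoc]

lemma pw_mul (x y : S) (n : ℕ) : pw (x * y) n = pw x n * pw y n := by
  induction n with
  | zero => rfl
  | succ n ih => rw [pw, pw, pw, ih, mul_mul_mul_comm]

lemma of_canc (h : Canc S) : Canc (S →ₙ* S) := fun f g k e =>
  MulHom.ext fun x => h (f x) _ _ (DFunLike.congr_fun e x)

lemma idem (h : Canc (S →ₙ* S)) (e : S) (he : e * e = e) (x : S) : e * x = x := by
  let ε : S →ₙ* S := ⟨fun _ => e, fun _ _ => he.symm⟩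
  have := h ε (ε * MulHom.id S) (MulHom.id S) (MulHom.ext fun y => by
    show e * (e * y) = e * y
    rw [← mul_assoc, he])
  exact DFunLike.congr_fun this x

lemma epi [Nonempty S] (hS : ∀ x : S, ∃ n z, pw x n * pw x n * z = pw x n) :
    Canc (S →ₙ* S) ↔ ∃ e : S, (∀ x, e * x = x) ∧ ∀ x, ∃ y, x * y = e := by
  constructor
  · intro h
    have key : ∀ x : S, ∃ y, ∀ u, x * y * u = u := by
      intro x
      obtain ⟨n, z, hz⟩ := hS x
      have h1 := idem h (pw x n * z) (by
        rw [mul_mul_mul_comm, ← mul_assoc, hz])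
      cases n with
      | zero => exact ⟨z, h1⟩
      | succ n => exact ⟨pw x n * z, fun u => by rw [← mul_assoc x]; exact h1 u⟩
    obtain ⟨x⟩ := ‹Nonempty S›
    obtain ⟨y, hy⟩ := key x
    refine ⟨x * y, hy, fun a => ?_⟩
    obtain ⟨b, hb⟩ := key a
    exact ⟨b, by rw [← hy (a * b), mul_comm, hb]⟩
  · rintro ⟨e, h1, h2⟩
    refine of_canc fun a b c h => ?_
    obtain ⟨y, hy⟩ := h2 a
    rw [← h1 b, ← h1 c, ← hy, mul_comm a y, mul_assoc, mul_assoc, h]

lemma graded (d : S → ℕ) (hd : ∀ x y, d (x * y) = d x + d y) (h1 : ∀ x, 1 ≤ d x) (a : S)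
    (ha : d a = 1) (h : Canc (S →ₙ* S)) : Canc S := by
  let φ : S → (S →ₙ* S) := fun s => ⟨fun x => pw s (d x - 1), fun x y => by
    have := h1 x
    have := h1 y
    rw [← pw_add, hd]; congr 1; omega⟩
  intro u s t e
  have h2 := h (φ u) (φ s) (φ t) (MulHom.ext fun x => by
    show pw u _ * pw s _ = pw u _ * pw t _
    rw [← pw_mul, ← pw_mul, e])
  have h3 : pw s (d a - 1) = pw t (d a - 1) := DFunLike.congr_fun h2 a
  rw [ha] at h3
  exact h3
end

/-- The integers `≥ 4` under addition with the point `11` doubled: `4 + 7 ≠ 5 + 6`. -/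
def E : Type := {p : ℕ × Bool // 4 ≤ p.1 ∧ (p.2 = true → p.1 = 11)}

instance : CommSemigroup E where
  mul p q := ⟨(p.1.1 + q.1.1, decide (p.1.1 + q.1.1 = 11 ∧ (p.1.1 = 5 ∨ p.1.1 = 6))),
    by have := p.2.1; omega, by simp only [decide_eq_true_eq]; omega⟩
  mul_assoc p q r := Subtype.ext (Prod.ext (add_assoc _ _ _) (by
    have := p.2.1; have := q.2.1; have := r.2.1
    show decide (p.1.1 + q.1.1 + r.1.1 = 11 ∧ _) = decide (p.1.1 + (q.1.1 + r.1.1) = 11 ∧ _)
    rw [decide_eq_decide]; omega))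
  mul_comm p q := Subtype.ext (Prod.ext (add_comm _ _) (by
    show decide (p.1.1 + q.1.1 = 11 ∧ _) = decide (q.1.1 + p.1.1 = 11 ∧ _)
    rw [decide_eq_decide]; omega))

def el (n : ℕ) : E := ⟨(n + 4, false), by omega, by simp⟩

lemma deg_mul (p q : E) : (p * q).1.1 = p.1.1 + q.1.1 := rfl

lemma eq_of (p q : E) (h : p.1.1 = q.1.1) (h' : p.1.1 ≠ 11) : p = q := by
  obtain ⟨⟨a, b⟩, h1, h2⟩ := p
  obtain ⟨⟨c, d⟩, h3, h4⟩ := q
  simp only at h h' h2 h4
  subst h
  cases b <;> cases d <;> simp_all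

lemma E_canc : Canc (E →ₙ* E) := by
  intro f g h e
  have hdeg : ∀ x, (g x).1.1 = (h x).1.1 := fun x => by
    have h1 : f x * g x = f x * h x := DFunLike.congr_fun e x
    have h2 := congrArg (fun p : E => p.1.1) h1
    simp only [deg_mul] at h2
    omega
  have r1 := congrArg (fun p : E => (g p).1.1) (show el 0 * el 2 = el 1 * el 1 from rfl)
  have r2 := congrArg (fun p : E => (g p).1.1) (show el 1 * el 3 = el 2 * el 2 from rfl)
  have r3 := congrArg (fun p : E => (g p).1.1) (show el 0 * el 0 * el 0 = el 2 * el 2 from rfl)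
  simp only [map_mul, deg_mul] at r1 r2 r3
  have g0 := eq_of _ _ (hdeg (el 0)) (by omega)
  have g1 := eq_of _ _ (hdeg (el 1)) (by omega)
  have g2 := eq_of _ _ (hdeg (el 2)) (by omega)
  have g3 := eq_of _ _ (hdeg (el 3)) (by omega)
  have gn : ∀ n, g (el n) = h (el n) := by
    intro n
    induction n using Nat.strong_induction_on with
    | _ n ih =>
      rcases n with _ | _ | _ | _ | n
      · exact g0
      · exact g1
      · exact g2
      · exact g3
      · have : el (n + 1 + 1 + 1 + 1) = el 0 * el n := Subtype.ext (Prod.ext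
          (by rw [deg_mul]; simp only [el]; omega) (by
            show false = decide (_ ∧ (0 + 4 = 5 ∨ 0 + 4 = 6))
            simp))
        rw [this, map_mul, map_mul, g0, ih n (by omega)]
  refine MulHom.ext fun x => ?_
  obtain ⟨⟨a, b⟩, h1, h2⟩ := x
  cases b with
  | false =>
    obtain ⟨n, rfl⟩ : ∃ n, a = n + 4 := ⟨a - 4, by simp only at h1; omega⟩
    exact gn n
  | true =>
    obtain rfl : a = 11 := h2 rfl
    show g (el 1 * el 2) = h (el 1 * el 2)
    rw [map_mul, map_mul, g1, g2]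

theorem result :
    (∀ (S : Type) [CommSemigroup S] [Nonempty S],
      (Canc S → Canc (S →ₙ* S)) ∧
      (Canc (S →ₙ* S) → ∀ e : S, e * e = e → ∀ x, e * x = x) ∧
      ((∀ x : S, ∃ n z, pw x n * pw x n * z = pw x n) →
        (Canc (S →ₙ* S) ↔ ∃ e : S, (∀ x, e * x = x) ∧ ∀ x, ∃ y, x * y = e)) ∧
      ((∃ d : S → ℕ, (∀ x y, d (x * y) = d x + d y) ∧ (∀ x, 1 ≤ d x) ∧ ∃ a, d a = 1) →
        (Canc (S →ₙ* S) ↔ Canc S))) ∧
    Canc (E →ₙ* E) ∧ ∃ a b : E, a ≠ b ∧ a * a = a * b ∧ a * b = b * b := by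
  refine ⟨fun S _ _ => ⟨of_canc, idem, epi, ?_⟩, E_canc, el 0 * el 3, el 1 * el 2, ?_, rfl, rfl⟩
  · rintro ⟨d, h1, h2, a, ha⟩
    exact ⟨graded d h1 h2 a ha, of_canc⟩
  · intro h
    have := congrArg (fun p : E => p.1.2) h
    exact absurd this (by decide)

end Pool.Agent.Results.MP_4b0123_al.Cases
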